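import Mathlib

set_option autoImplicit false

namespace Run7.h501.KeySets

/-- Key sets with congruence conditions.  For coprime `a1, a2` and every `k` there are
`0 < s 0 < ... < s (k-1)` such that `a2 (s j - s i)` divides `s i` and `a1 (s j - s i)` divides `s j`
for all `i < j < k`. -/
theorem exists_keyset (a1 a2 : ℤ) (h1 : 0 < a1) (h2 : 0 < a2) (hc : IsCoprime a1 a2) (k : ℕ) :
    ∃ (s : ℕ → ℤ) (N : ℕ) (Q : ℤ), 0 < Q ∧ IsCoprime Q a2 ∧ (∀ i, i < k → 0 < s i) ∧
      ∀ i j, i < j → j < k → s i < s j ∧ a2 * (s j - s i) ∣ s i ∧ a1 * (s j - s i) ∣ s j ∧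
        (s j - s i) ∣ a2 ^ N * Q := by
  induction k with
  | zero =>
    refine ⟨fun _ => 1, 0, 1, one_pos, isCoprime_one_left, ?_, ?_⟩
    · intro i hi; omega
    · intro i j _ hj; omega
  | succ k ih =>
    obtain ⟨s, N, Q, hQ, hQc, hpos, hs⟩ := ih
    -- a bound for the old values
    obtain ⟨B, hB0, hB⟩ : ∃ B : ℤ, 0 ≤ B ∧ ∀ i, i < k → s i ≤ B := by
      refine ⟨∑ i ∈ Finset.range k, |s i|, Finset.sum_nonneg fun i _ => abs_nonneg _, ?_⟩
      intro i hi
      calc s i ≤ |s i| := le_abs_self _
        _ ≤ ∑ i ∈ Finset.range k, |s i| :=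
          Finset.single_le_sum (f := fun i => |s i|) (fun i _ => abs_nonneg _)
            (Finset.mem_range.mpr hi)
    set M : ℤ := Q * a1 * (1 + a2 * B) with hM
    have hMpos : 0 < M := by positivity
    have hMbig : ∀ i, i < k → a2 * s i < M := by
      intro i hi
      have h3 : a2 * s i ≤ a2 * B := mul_le_mul_of_nonneg_left (hB i hi) h2.le
      have h4 : a2 * B < 1 + a2 * B := by linarith
      have h5 : 1 + a2 * B ≤ M := by
        have h6 : 1 ≤ Q * a1 := by
          have : 0 < Q * a1 := mul_pos hQ h1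
          linarith
        have h7 : 0 ≤ 1 + a2 * B := by positivity
        calc 1 + a2 * B = 1 * (1 + a2 * B) := by ring
          _ ≤ Q * a1 * (1 + a2 * B) := mul_le_mul_of_nonneg_right h6 h7
      linarith
    have hMc : IsCoprime M a2 := by
      rw [hM]
      refine (hQc.mul_left hc).mul_left ?_
      exact ⟨1, -B, by ring⟩
    set W : ℤ := a1 * ∏ i ∈ Finset.range k, (M - a2 * s i) with hW
    have hWpos : 0 < W := by
      refine mul_pos h1 (Finset.prod_pos ?_)
      intro i hi
      have := hMbig i (Finset.mem_range.mp hi)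
      linarith
    have hMic : ∀ i, IsCoprime (M - a2 * s i) a2 := by
      intro i
      have := hMc.add_mul_left_left (-(s i))
      have h8 : M + a2 * -(s i) = M - a2 * s i := by ring
      rwa [h8] at this
    have hWc : IsCoprime W a2 := by
      rw [hW]
      refine hc.mul_left ?_
      exact IsCoprime.prod_left fun i _ => hMic i
    have hWd : ∀ i, i < k → a1 * (M - a2 * s i) ∣ W := by
      intro i hi
      rw [hW]
      exact mul_dvd_mul_left _ (Finset.dvd_prod_of_mem (fun i => M - a2 * s i)
        (Finset.mem_range.mpr hi))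
    obtain ⟨u, v, huv⟩ : IsCoprime W (a2 ^ (N + 2)) := hWc.pow_right
    -- a positive inverse of W modulo a2 ^ (N+2)
    obtain ⟨t, ht1, htd⟩ : ∃ t : ℤ, 1 ≤ t ∧ a2 ^ (N + 2) ∣ W * t - 1 := by
      refine ⟨u + a2 ^ (N + 2) * (|u| + 1), ?_, ?_⟩
      · have h9 : (1 : ℤ) ≤ a2 ^ (N + 2) := one_le_pow₀ (by linarith)
        have h10 : 0 ≤ |u| + 1 := by positivity
        have h11 : 1 * (|u| + 1) ≤ a2 ^ (N + 2) * (|u| + 1) := mul_le_mul_of_nonneg_right h9 h10
        have h12 : -|u| ≤ u := neg_abs_le u
        linarith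
      · refine ⟨W * (|u| + 1) - v, ?_⟩
        linear_combination huv
    have hWt : 1 ≤ W * t := by
      have : 1 * 1 ≤ W * t := mul_le_mul (by linarith) ht1 zero_le_one hWpos.le
      linarith
    have hWt0 : 0 ≤ M * (W * t - 1) := mul_nonneg hMpos.le (by linarith)
    have hMd : Q * a1 ∣ M := ⟨1 + a2 * B, by rw [hM]⟩
    have hMWd : a2 ^ (N + 2) * (Q * a1) ∣ M * (W * t - 1) := by
      rw [mul_comm M]
      exact mul_dvd_mul htd hMd
    refine ⟨fun i => if i < k then a2 * s i + M * (W * t - 1) else M * W * t, N + 1, Q * W,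
      mul_pos hQ hWpos, hQc.mul_left hWc, ?_, ?_⟩
    · intro i _
      dsimp only
      split_ifs with h
      · have := hpos i h
        positivity
      · have : 0 < t := by linarith
        positivity
    · intro i j hij hj
      have hik : i < k := by omega
      dsimp only
      rw [if_pos hik]
      by_cases hjk : j < k
      · rw [if_pos hjk]
        obtain ⟨hlt, hd2, hd1, hdN⟩ := hs i j hij hjk
        have hdiff : a2 * s j + M * (W * t - 1) - (a2 * s i + M * (W * t - 1))
            = a2 * (s j - s i) := by ring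
        rw [hdiff]
        refine ⟨?_, ?_, ?_, ?_⟩
        · have := mul_lt_mul_of_pos_left hlt h2
          linarith
        · refine dvd_add (mul_dvd_mul_left _ hd2) (dvd_trans ?_ hMWd)
          have e : a2 ^ (N + 2) * (Q * a1) = a2 * (a2 * (a2 ^ N * Q)) * a1 := by ring
          rw [e]
          exact Dvd.dvd.mul_right (mul_dvd_mul_left _ (mul_dvd_mul_left _ hdN)) _
        · have e1 : a1 * (a2 * (s j - s i)) = a2 * (a1 * (s j - s i)) := by ring
          rw [e1]
          refine dvd_add (mul_dvd_mul_left _ hd1) (dvd_trans ?_ hMWd)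
          have e : a2 ^ (N + 2) * (Q * a1) = a2 * (a1 * (a2 ^ N * Q)) * a2 := by ring
          rw [e]
          exact Dvd.dvd.mul_right (mul_dvd_mul_left _ (mul_dvd_mul_left _ hdN)) _
        · have e : a2 ^ (N + 1) * (Q * W) = a2 * (a2 ^ N * Q) * W := by ring
          rw [e]
          exact Dvd.dvd.mul_right (mul_dvd_mul_left _ hdN) _
      · rw [if_neg hjk]
        have hdiff : M * W * t - (a2 * s i + M * (W * t - 1)) = M - a2 * s i := by ring
        rw [hdiff]
        have hbig := hMbig i hik
        refine ⟨by linarith, ?_, ?_, ?_⟩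
        · have hcop : IsCoprime a2 (M - a2 * s i) := (hMic i).symm
          refine hcop.mul_dvd ?_ ?_
          · refine dvd_add (dvd_mul_right _ _) (Dvd.dvd.mul_left ?_ _)
            exact dvd_trans (dvd_pow_self a2 (by omega)) htd
          · have hx : M - a2 * s i ∣ M * W * t :=
              dvd_mul_of_dvd_left (dvd_mul_of_dvd_right
                (dvd_trans (dvd_mul_left _ _) (hWd i hik)) _) _
            have e : a2 * s i + M * (W * t - 1) = M * W * t - (M - a2 * s i) := by ring
            rw [e]
            exact dvd_sub hx (dvd_refl _)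
        · exact dvd_mul_of_dvd_left (dvd_mul_of_dvd_right (hWd i hik) _) _
        · have hx : M - a2 * s i ∣ W := dvd_trans (dvd_mul_left _ _) (hWd i hik)
          exact dvd_mul_of_dvd_right (dvd_mul_of_dvd_right hx _) _

end Run7.h501.KeySets
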