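import Mathlib
import Pool.Agent.Run7.h501.KeySets

set_option autoImplicit false
open MeasureTheory

namespace Run7.h501.MultRec

/-- Poincare pigeonhole: among sufficiently many sets of the same positive measure in a
probability space, two meet in positive measure. -/
theorem pigeonhole {X : Type} [MeasurableSpace X] (μ : Measure X) [IsProbabilityMeasure μ]
    (B : ℕ → Set X) (hB : ∀ i, MeasurableSet (B i)) (c : ENNReal) (k : ℕ) (hk : 1 < k * c)
    (hc : ∀ i, i < k → μ (B i) = c) :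
    ∃ i j, i < j ∧ j < k ∧ 0 < μ (B i ∩ B j) := by
  by_contra hcon
  push Not at hcon
  have hzero : ∀ i j, i < j → j < k → μ (B i ∩ B j) = 0 := fun i j h1 h2 =>
    le_antisymm (hcon i j h1 h2) (zero_le)
  have hpair : Set.Pairwise (↑(Finset.range k)) (Function.onFun (AEDisjoint μ) B) := by
    intro i hi j hj hij
    have hi' : i < k := by simpa using hi
    have hj' : j < k := by simpa using hj
    rcases lt_or_gt_of_ne hij with h | h
    · exact hzero i j h hj'
    · show μ (B i ∩ B j) = 0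
      rw [Set.inter_comm]
      exact hzero j i h hi'
  have hsum := measure_biUnion_finset₀ hpair (fun i _ => (hB i).nullMeasurableSet)
  have hsum2 : ∑ i ∈ Finset.range k, μ (B i) = k * c := by
    rw [Finset.sum_congr rfl (fun i hi => hc i (Finset.mem_range.mp hi))]
    simp
  rw [hsum2] at hsum
  have hle : μ (⋃ i ∈ Finset.range k, B i) ≤ 1 := prob_le_one
  rw [hsum] at hle
  exact absurd hk (not_lt.mpr hle)

/-- The main case `d < b`. -/
theorem core (a : ℕ) (b d : ℤ) (ha : 0 < a)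
    (hg : ∀ k : ℤ, k ∣ (a : ℤ) → k ∣ b → k ∣ d → IsUnit k)
    (hab : (a : ℤ) ∣ b * d) (hdb : d < b)
    (X : Type) [MeasurableSpace X] (μ : Measure X) [IsProbabilityMeasure μ]
    (T : ℚ → X → X)
    (hmul : ∀ q r : ℚ, 0 < q → 0 < r → T (q * r) = T q ∘ T r)
    (hT : ∀ q : ℚ, 0 < q → MeasurePreserving (T q) μ μ)
    (A : Set X) (hA : MeasurableSet A) (hpos : 0 < μ A) :
    ∃ n : ℕ, 0 < n ∧ 0 < (a : ℤ) * n + b ∧ 0 < (a : ℤ) * n + d ∧
      0 < μ (A ∩ T (((a : ℚ) * n + b) / ((a : ℚ) * n + d)) ⁻¹' A) := by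
  have haZ : (0 : ℤ) < a := by exact_mod_cast ha
  set a1 : ℤ := (Int.gcd a b : ℤ) with ha1
  set a2 : ℤ := (Int.gcd a d : ℤ) with ha2
  have h1 : 0 < a1 := by
    rw [ha1]; exact_mod_cast Int.gcd_pos_of_ne_zero_left b haZ.ne'
  have h2 : 0 < a2 := by
    rw [ha2]; exact_mod_cast Int.gcd_pos_of_ne_zero_left d haZ.ne'
  have h1a : a1 ∣ (a : ℤ) := Int.gcd_dvd_left _ _
  have h1b : a1 ∣ b := Int.gcd_dvd_right _ _
  have h2a : a2 ∣ (a : ℤ) := Int.gcd_dvd_left _ _
  have h2d : a2 ∣ d := Int.gcd_dvd_right _ _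
  have hcop : IsCoprime a1 a2 := by
    rw [Int.isCoprime_iff_gcd_eq_one]
    have hu : IsUnit ((Int.gcd a1 a2 : ℕ) : ℤ) := by
      apply hg
      · exact (Int.gcd_dvd_left _ _).trans h1a
      · exact (Int.gcd_dvd_left _ _).trans h1b
      · exact (Int.gcd_dvd_right _ _).trans h2d
    have := Int.isUnit_iff_natAbs_eq.mp hu
    simpa using this
  have ha12 : (a : ℤ) ∣ a1 * a2 := Int.dvd_gcd_mul_gcd_iff_dvd_mul.mpr hab
  -- choose the number of sets
  obtain ⟨k, hk⟩ := ENNReal.exists_nat_mul_gt hpos.ne' ENNReal.one_ne_top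
  obtain ⟨s, N, Q, hQ, -, hspos, hs⟩ := KeySets.exists_keyset a1 a2 h1 h2 hcop k
  set V : ℤ := |d| + a with hV
  have hVpos : 0 < V := by positivity
  set L : ℤ := a1 * a2 * (a2 ^ N * Q) with hL
  have hLpos : 0 < L := by positivity
  -- shifted key set
  have hs'pos : ∀ i, i < k → 0 < s i + L * V := fun i hi => by
    have := hspos i hi
    positivity
  set r : ℕ → ℚ := fun i => if i < k then ((s i + L * V : ℤ) : ℚ) else 1 with hr
  have hrpos : ∀ i, 0 < r i := by
    intro i
    simp only [hr]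
    split_ifs with h
    · exact_mod_cast hs'pos i h
    · exact one_pos
  obtain ⟨i, j, hij, hjk, hpos2⟩ := pigeonhole μ (fun i => T (r i) ⁻¹' A)
    (fun i => (hT _ (hrpos i)).measurable hA) (μ A) k hk
    (fun i _ => (hT _ (hrpos i)).measure_preimage hA.nullMeasurableSet)
  have hik : i < k := hij.trans hjk
  obtain ⟨hlt, hd2, hd1, hdN⟩ := hs i j hij hjk
  set δ : ℤ := s j - s i with hδ
  have hδpos : 0 < δ := by rw [hδ]; linarith
  have hδL : a2 * δ ∣ L := by
    rw [hL]
    have e : a1 * a2 * (a2 ^ N * Q) = a2 * (a2 ^ N * Q) * a1 := by ring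
    rw [e]
    exact Dvd.dvd.mul_right (mul_dvd_mul_left _ hdN) _
  have hδL1 : a1 * δ ∣ L := by
    rw [hL]
    have e : a1 * a2 * (a2 ^ N * Q) = a1 * (a2 ^ N * Q) * a2 := by ring
    rw [e]
    exact Dvd.dvd.mul_right (mul_dvd_mul_left _ hdN) _
  obtain ⟨v2, hv2⟩ : a2 * δ ∣ s i + L * V := dvd_add hd2 (Dvd.dvd.mul_right hδL _)
  obtain ⟨u1, hu1⟩ : a1 * δ ∣ s j + L * V := dvd_add hd1 (Dvd.dvd.mul_right hδL1 _)
  set v : ℤ := a2 * v2 with hv
  have hvs : s i + L * V = δ * v := by rw [hv2, hv]; ring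
  have hus : s j + L * V = δ * (v + 1) := by
    have : s j = s i + δ := by rw [hδ]; ring
    rw [this]; linear_combination hvs
  have hu1' : v + 1 = a1 * u1 := by
    have e : δ * (v + 1) = δ * (a1 * u1) := by rw [← hus, hu1]; ring
    exact mul_left_cancel₀ hδpos.ne' e
  have hδleL : δ ≤ L := by
    have : δ ∣ L := (dvd_mul_left _ _).trans hδL
    exact Int.le_of_dvd hLpos this
  have hVv : V ≤ v := by
    have e1 : δ * V ≤ δ * v := by
      rw [← hvs]
      have := hspos i hik
      have e2 : δ * V ≤ L * V := mul_le_mul_of_nonneg_right hδleL hVpos.le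
      linarith
    exact le_of_mul_le_mul_left e1 hδpos
  have hvpos : 0 < v := by linarith
  -- the integer n
  set t : ℤ := b - d with ht
  have htpos : 0 < t := by rw [ht]; linarith
  have hdiv : (a : ℤ) ∣ t * v - d := by
    refine ha12.trans (hcop.mul_dvd ?_ ?_)
    · have e : t * v - d = t * (v + 1) - b := by rw [ht]; ring
      rw [e, hu1']
      exact dvd_sub (Dvd.dvd.mul_left (dvd_mul_right _ _) _) h1b
    · rw [hv]
      exact dvd_sub (Dvd.dvd.mul_left (dvd_mul_right _ _) _) h2d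
  obtain ⟨m, hm⟩ := hdiv
  have hlarge : (a : ℤ) ≤ t * v - d := by
    have e1 : 1 * v ≤ t * v := mul_le_mul_of_nonneg_right (by linarith) hvpos.le
    have e2 : d ≤ |d| := le_abs_self d
    rw [hV] at hVv
    linarith
  have hmpos : 0 < m := by
    have : 0 < (a : ℤ) * m := by rw [← hm]; linarith
    exact (mul_pos_iff_of_pos_left haZ).mp this
  obtain ⟨n, rfl⟩ : ∃ n : ℕ, m = n := ⟨m.toNat, (Int.toNat_of_nonneg hmpos.le).symm⟩
  have hn1 : (a : ℤ) * n + d = t * v := by rw [← hm]; ring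
  have hn2 : (a : ℤ) * n + b = t * (v + 1) := by
    have : b = t + d := by rw [ht]; ring
    rw [this]; linear_combination hn1
  refine ⟨n, by exact_mod_cast hmpos, ?_, ?_, ?_⟩
  · rw [hn2]; positivity
  · rw [hn1]; positivity
  · have hvQ : (0 : ℚ) < v := by exact_mod_cast hvpos
    have htQ : (0 : ℚ) < t := by exact_mod_cast htpos
    have hδQ : (0 : ℚ) < δ := by exact_mod_cast hδpos
    have hratio : ((a : ℚ) * n + b) / ((a : ℚ) * n + d) = ((v : ℚ) + 1) / v := by
      have e1 : (a : ℚ) * n + b = t * (v + 1) := by exact_mod_cast hn2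
      have e2 : (a : ℚ) * n + d = t * v := by exact_mod_cast hn1
      rw [e1, e2]
      field_simp
    have hri : r i = (δ : ℚ) * v := by
      simp only [hr, if_pos hik]
      rw [hvs]; push_cast; ring
    have hrj : r j = (δ : ℚ) * (v + 1) := by
      simp only [hr, if_pos hjk]
      rw [hus]; push_cast; ring
    have hq : r j = (((v : ℚ) + 1) / v) * r i := by
      rw [hri, hrj]
      field_simp
    have hqpos : (0 : ℚ) < ((v : ℚ) + 1) / v := by positivity
    rw [hratio]
    have hset : T (r i) ⁻¹' A ∩ T (r j) ⁻¹' A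
        = T (r i) ⁻¹' (A ∩ T (((v : ℚ) + 1) / v) ⁻¹' A) := by
      rw [hq, hmul _ _ hqpos (hrpos i)]
      rfl
    have hmeas : MeasurableSet (A ∩ T (((v : ℚ) + 1) / v) ⁻¹' A) :=
      hA.inter ((hT _ hqpos).measurable hA)
    rw [hset, (hT _ (hrpos i)).measure_preimage hmeas.nullMeasurableSet] at hpos2
    exact hpos2

end Run7.h501.MultRec
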