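import Pool.Agent.Run7.h501.NFTower
import Pool.Agent.N783.CF.WRFinal
import Pool.Agent.TH858.J3094
import Pool.Agent.TH626.J3090
import Pool.Agent.TH263.J3086
import Pool.Agent.TH914.J3087
import Pool.Agent.TH938.J3088
import Pool.Agent.TH370.J3089
import Pool.Agent.TH293.J3093
import Pool.Agent.TH89.J3091
import Pool.Agent.TH55.J3092

/-!
# Many extensions of given degree of a number field through a given intermediate field
-/

set_option autoImplicit false

namespace Run7.h501.NF

open NumberField Filter Topology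

theorem quadUnif : Pool.Agent.TH444.ML.QuadUnif :=
  Pool.Agent.TH293.J3093.quadUnif Pool.Agent.TH263.J3086.discQuad Pool.Agent.TH914.J3087.kumP
    Pool.Agent.TH89.J3091.idealUnif Pool.Agent.TH55.J3092.princUnif

theorem quadLim : Pool.Agent.TH444.ML.QuadLim :=
  Pool.Agent.TH626.J3090.quadLim Pool.Agent.TH263.J3086.discQuad Pool.Agent.TH914.J3087.kumP
    Pool.Agent.TH938.J3088.coneFacts
    (Pool.Agent.TH370.J3089.coneSqf Pool.Agent.TH938.J3088.coneFacts
      Pool.Agent.TH938.J3088.coneDens)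

theorem quadPos : Pool.Agent.TH444.ML.QuadPos :=
  Pool.Agent.TH858.J3094.quadPos Pool.Agent.TH263.J3086.discQuad Pool.Agent.TH914.J3087.kumP
    quadUnif

/-- The members of `Fields K n X` which contain `M`. -/
def Above (K : Type) [Field K] [NumberField K] (M : IntermediateField K (AlgebraicClosure K))
    (n : ℕ) (X : ℝ) : Set (IntermediateField K (AlgebraicClosure K)) :=
  {L | L ∈ Fields K n X ∧ M ≤ L}

theorem fields_finite (K : Type) [Field K] [NumberField K] (n : ℕ) (hn : 2 ≤ n) (X : ℝ)
    (hX : 1 ≤ X) : (Fields K n X).Finite :=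
  Pool.Agent.N783.CF.finf K n X hn hX

/-- One step. -/
theorem step (K : Type) [Field K] [NumberField K]
    (M : IntermediateField K (AlgebraicClosure K)) [NumberField M] (p : ℕ) (hp : p.Prime) :
    ∃ c : ℝ, 0 < c ∧ ∃ X₀ : ℝ, ∀ X : ℝ, X₀ ≤ X →
      c * X ^ ((1 : ℝ) / 2 + 1 / (p : ℝ)) ≤
        ((Above K M (Module.finrank K M * p) X).ncard : ℝ) := by
  have hfd : FiniteDimensional K M := fd K M
  have hpos : 0 < Module.finrank K M := Module.finrank_pos
  rcases hp.eq_two_or_odd' with rfl | hodd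
  · obtain ⟨c, hc, h⟩ := tendsto_quad quadLim quadPos K M
    have h1 := (h.eventually (lt_mem_nhds (by linarith : c / 2 < c))).and
      (eventually_gt_atTop (0 : ℝ))
    obtain ⟨X₀, hX₀⟩ := eventually_atTop.1 h1
    refine ⟨c / 2, by positivity, X₀, fun X hX => ?_⟩
    obtain ⟨h3, h4⟩ := hX₀ X hX
    rw [lt_div_iff₀ h4] at h3
    have h5 : (1 : ℝ) / 2 + 1 / ((2 : ℕ) : ℝ) = 1 := by norm_num
    rw [h5, Real.rpow_one]
    exact h3.le
  · obtain ⟨g, hg⟩ := hodd
    have hg1 : 1 ≤ g := by
      have := hp.two_le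
      omega
    obtain ⟨c, hc, X₀, h⟩ := Pool.Agent.N783.CF.wreathFields g K M hg1
    refine ⟨c, hc, X₀, fun X hX => ?_⟩
    obtain ⟨hfin, T, hT, hTW, hle⟩ := h X hX
    rw [hg]
    refine hle.trans ?_
    have hsub : T ⊆ Above K M (Module.finrank K M * (2 * g + 1)) X := by
      intro L hL
      obtain ⟨hML, -⟩ := hTW L hL
      exact ⟨hT hL, hML⟩
    have hfin' : (Above K M (Module.finrank K M * (2 * g + 1)) X).Finite :=
      hfin.subset fun L hL => hL.1
    exact_mod_cast Set.ncard_le_ncard hsub hfin'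

/-- Extensions of every degree exist. -/
theorem exists_above (K : Type) [Field K] [NumberField K]
    (M : IntermediateField K (AlgebraicClosure K)) [NumberField M] :
    ∀ e : ℕ, 1 ≤ e → ∃ M' : IntermediateField K (AlgebraicClosure K), NumberField M' ∧ M ≤ M' ∧
      Module.finrank K M' = Module.finrank K M * e := by
  intro e
  induction e using Nat.strong_induction_on with
  | _ e ih =>
    intro he
    rcases Nat.lt_or_ge 1 e with h1 | h1
    · have hp : e.minFac.Prime := Nat.minFac_prime (by omega)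
      obtain ⟨f, hf⟩ := Nat.minFac_dvd e
      have hf0 : 1 ≤ f := by
        rcases Nat.eq_zero_or_pos f with h | h
        · rw [h, mul_zero] at hf
          omega
        · exact h
      have hlt : f < e := by
        rw [hf]
        have := hp.two_le
        nlinarith
      obtain ⟨M₁, hM₁, hle, hd⟩ := ih f hlt hf0
      obtain ⟨c, hc, X₀, h⟩ := step K M₁ e.minFac hp
      have h2 := h (max X₀ 1) (le_max_left _ _)
      have h3 : 0 < c * (max X₀ 1) ^ ((1 : ℝ) / 2 + 1 / (e.minFac : ℝ)) := by positivity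
      have h4 : (Above K M₁ (Module.finrank K M₁ * e.minFac) (max X₀ 1)).ncard ≠ 0 := by
        intro h5
        rw [h5] at h2
        simp only [Nat.cast_zero] at h2
        linarith
      obtain ⟨L, ⟨⟨hL1, hL2, -⟩, hL3⟩⟩ := Set.nonempty_of_ncard_ne_zero h4
      refine ⟨L, hL2, hle.trans hL3, ?_⟩
      rw [hL1, hd, mul_assoc, mul_comm f]
      rw [← hf]
    · obtain rfl : e = 1 := by omega
      exact ⟨M, inferInstance, le_rfl, by rw [mul_one]⟩

/-- The general lower bound. -/
theorem lower (K : Type) [Field K] [NumberField K]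
    (M : IntermediateField K (AlgebraicClosure K)) [NumberField M] (d : ℕ) (hd : 2 ≤ d) :
    ∃ c : ℝ, 0 < c ∧ ∃ X₀ : ℝ, ∀ X : ℝ, X₀ ≤ X →
      (Above K M (Module.finrank K M * d) X).Finite ∧
      c * X ^ ((1 : ℝ) / 2 + 1 / (d.minFac : ℝ)) ≤
        ((Above K M (Module.finrank K M * d) X).ncard : ℝ) := by
  have hfd : FiniteDimensional K M := fd K M
  have hpos : 0 < Module.finrank K M := Module.finrank_pos
  have hp : d.minFac.Prime := Nat.minFac_prime (by omega)
  obtain ⟨f, hf⟩ := Nat.minFac_dvd d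
  have hf0 : 1 ≤ f := by
    rcases Nat.eq_zero_or_pos f with h | h
    · rw [h, mul_zero] at hf
      omega
    · exact h
  obtain ⟨M', hM', hle, hd'⟩ := exists_above K M f hf0
  obtain ⟨c, hc, X₀, h⟩ := step K M' d.minFac hp
  refine ⟨c, hc, max X₀ 1, fun X hX => ?_⟩
  have h1 := h X ((le_max_left _ _).trans hX)
  have hX1 : 1 ≤ X := (le_max_right _ _).trans hX
  have hfin : (Above K M (Module.finrank K M * d) X).Finite :=
    (fields_finite K _ (by nlinarith) X hX1).subset fun L hL => hL.1
  refine ⟨hfin, h1.trans ?_⟩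
  have hsub : Above K M' (Module.finrank K M' * d.minFac) X ⊆
      Above K M (Module.finrank K M * d) X := by
    rintro L ⟨⟨hL1, hL2⟩, hL3⟩
    refine ⟨⟨?_, hL2⟩, hle.trans hL3⟩
    rw [hL1, hd', mul_assoc, mul_comm f, ← hf]
  exact_mod_cast Set.ncard_le_ncard hsub hfin

end Run7.h501.NF
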