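import Pool.Agent.TH444.ML.Defs

/-!
# Quadratic extensions of an intermediate field, as extensions of the ground field
-/

set_option autoImplicit false

namespace Run7.h501.NF

open NumberField Filter Topology
open Pool.Agent.TH444.ML (QS)

/-- The extensions of degree `n` of `K` inside the algebraic closure of `K` whose absolute discriminant
has absolute value at most `X`. -/
def Fields (K : Type) [Field K] [NumberField K] (n : ℕ) (X : ℝ) :
    Set (IntermediateField K (AlgebraicClosure K)) :=
  {L | Module.finrank K L = n ∧
    ∃ h : NumberField L, ((|@NumberField.discr L _ h| : ℤ) : ℝ) ≤ X}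

theorem fd (K : Type) [Field K] [NumberField K]
    (M : IntermediateField K (AlgebraicClosure K)) [NumberField M] : FiniteDimensional K M :=
  Module.Finite.of_restrictScalars_finite ℚ K M

theorem discr_congr {L L' : Type} [Field L] [Field L'] [hL : NumberField L] [hL' : NumberField L']
    (e : L ≃+* L') : discr L = discr L' :=
  NumberField.discr_eq_discr_of_ringEquiv L e

theorem image_QS (K : Type) [Field K] [NumberField K]
    (M : IntermediateField K (AlgebraicClosure K)) [NumberField M] (X : ℝ) :
    {L | L ∈ Fields K (Module.finrank K M * 2) X ∧ M ≤ L} =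
      (fun L : IntermediateField M (AlgebraicClosure K) => L.restrictScalars K) ''
        QS M (AlgebraicClosure K) (X / ((discr M : ℤ) : ℝ) ^ 2) := by
  have hfd : FiniteDimensional K M := fd K M
  have hpos : 0 < Module.finrank K M := Module.finrank_pos
  have hd : (0 : ℝ) < ((discr M : ℤ) : ℝ) ^ 2 := by
    have h := discr_ne_zero M
    have : ((discr M : ℤ) : ℝ) ≠ 0 := by exact_mod_cast h
    positivity
  have hdX : X / ((discr M : ℤ) : ℝ) ^ 2 * ((discr M : ℤ) : ℝ) ^ 2 = X := by
    exact div_mul_cancel₀ _ hd.ne'
  have key : ∀ L : IntermediateField M (AlgebraicClosure K),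
      (L.restrictScalars K ∈ Fields K (Module.finrank K M * 2) X) ↔
        L ∈ QS M (AlgebraicClosure K) (X / ((discr M : ℤ) : ℝ) ^ 2) := by
    intro L
    have e : L ≃+* L.restrictScalars K := RingEquiv.refl _
    have h1 : Module.finrank K (L.restrictScalars K) = Module.finrank K M * Module.finrank M L := by
      have h2 := Module.finrank_mul_finrank K M L
      rw [h2]
      rfl
    unfold Fields QS
    simp only [Set.mem_ofPred_eq]
    rw [h1, hdX]
    constructor
    · rintro ⟨h3, h4, h5⟩
      refine ⟨Nat.eq_of_mul_eq_mul_left hpos h3, ?_⟩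
      have h6 : NumberField L := NumberField.of_ringEquiv _ _ e.symm
      refine ⟨h6, ?_⟩
      rw [discr_congr e]
      exact h5
    · rintro ⟨h3, h4, h5⟩
      refine ⟨by rw [h3], ?_⟩
      have h6 : NumberField (L.restrictScalars K) := NumberField.of_ringEquiv _ _ e
      refine ⟨h6, ?_⟩
      rw [← discr_congr e]
      exact h5
  ext L
  constructor
  · rintro ⟨h1, hML⟩
    refine ⟨IntermediateField.extendScalars hML, ?_, IntermediateField.extendScalars_restrictScalars hML⟩
    rw [← key, IntermediateField.extendScalars_restrictScalars hML]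
    exact h1
  · rintro ⟨L', h1, rfl⟩
    refine ⟨(key L').2 h1, ?_⟩
    intro x hx
    exact (L'.algebraMap_mem ⟨x, hx⟩ : _)

/-- The quadratic extensions of `M` have a positive density, as extensions of `K`. -/
theorem tendsto_quad (hlim : Pool.Agent.TH444.ML.QuadLim) (hpos : Pool.Agent.TH444.ML.QuadPos)
    (K : Type) [Field K] [NumberField K]
    (M : IntermediateField K (AlgebraicClosure K)) [NumberField M] :
    ∃ c : ℝ, 0 < c ∧ Tendsto (fun X : ℝ =>
      (({L | L ∈ Fields K (Module.finrank K M * 2) X ∧ M ≤ L}.ncard : ℕ) : ℝ) / X) atTop (𝓝 c) := by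
  obtain ⟨c, hc⟩ := hlim M (AlgebraicClosure K)
  have hp := hpos M (AlgebraicClosure K)
  have hc0 : c ≠ 0 := by
    rintro rfl
    exact hp hc
  have hc1 : 0 ≤ c := by
    refine ge_of_tendsto hc ?_
    filter_upwards [eventually_ge_atTop (0 : ℝ)] with Y hY
    positivity
  have hd : (0 : ℝ) < ((discr M : ℤ) : ℝ) ^ 2 := by
    have h := discr_ne_zero M
    have : ((discr M : ℤ) : ℝ) ≠ 0 := by exact_mod_cast h
    positivity
  have hdne : ((discr M : ℤ) : ℝ) ≠ 0 := by
    intro h
    rw [h] at hd
    norm_num at hd
  refine ⟨c / ((discr M : ℤ) : ℝ) ^ 2, by positivity, ?_⟩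
  have h1 : Tendsto (fun X : ℝ => X / ((discr M : ℤ) : ℝ) ^ 2) atTop atTop :=
    tendsto_id.atTop_div_const hd
  have h2 := (hc.comp h1).div_const (((discr M : ℤ) : ℝ) ^ 2)
  refine h2.congr fun X => ?_
  have hinj : Function.Injective
      (fun L : IntermediateField M (AlgebraicClosure K) => L.restrictScalars K) :=
    IntermediateField.restrictScalars_injective K
  rw [image_QS K M X, Set.ncard_image_of_injective _ hinj]
  simp only [Function.comp]
  field_simp

end Run7.h501.NF
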